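import Mathlib

/-! MP_d741cf_al, H4 half. The facts F1-F5 on free groups (row 539). -/

namespace FHH

/-- A central element of a free group with two letters is trivial. -/
theorem fg_center {ι : Type*} {a b : ι} (hab : a ≠ b) (z : FreeGroup ι)
    (hz : ∀ g, z * g = g * z) : z = 1 := by
  classical
  by_contra hz1
  have hw : z.toWord ≠ [] := by
    intro h
    exact hz1 (FreeGroup.toWord_eq_nil_iff.1 h)
  obtain ⟨⟨c, d⟩, t, ht⟩ := List.exists_cons_of_ne_nil hw
  obtain ⟨b', hb'⟩ : ∃ b' : ι, b' ≠ c := by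
    by_cases h : a = c
    · exact ⟨b, fun h' => hab (h.trans h'.symm)⟩
    · exact ⟨a, h⟩
  obtain ⟨s, ⟨l1, l2⟩, hs⟩ : ∃ s l, z.toWord = s ++ [l] :=
    ⟨_, _, (List.dropLast_append_getLast hw).symm⟩
  have hred : FreeGroup.IsReduced z.toWord := FreeGroup.isReduced_toWord
  have h1 : FreeGroup.IsReduced ((b', l2) :: z.toWord) := by
    rw [ht] at hred ⊢
    unfold FreeGroup.IsReduced at hred ⊢
    rw [List.isChain_cons_cons]
    exact ⟨fun h => absurd h hb', hred⟩
  have h2 : FreeGroup.IsReduced (z.toWord ++ [(b', l2)]) := by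
    rw [hs] at hred ⊢
    unfold FreeGroup.IsReduced at hred ⊢
    rw [List.isChain_append]
    refine ⟨hred, List.isChain_singleton _, ?_⟩
    intro x hx y hy
    simp at hx hy
    subst hx hy
    intro _
    rfl
  have h3 := congrArg FreeGroup.toWord (hz (FreeGroup.mk [(b', l2)]))
  rw [FreeGroup.toWord_mul, FreeGroup.toWord_mul, FreeGroup.toWord_mk, FreeGroup.reduce_singleton,
    h2.reduce_eq, List.singleton_append, h1.reduce_eq, ht] at h3
  have h4 := congrArg List.head? h3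
  simp at h4
  exact hb' h4.1.symm

/-- A free group with a nontrivial central element is cyclic. -/
theorem cyc_of_center {G : Type*} [Group G] [IsFreeGroup G] (z : G) (hz1 : z ≠ 1)
    (hz : ∀ g, z * g = g * z) : ∃ c : G, ∀ g : G, ∃ n : ℤ, g = c ^ n := by
  classical
  let e : G ≃* FreeGroup (IsFreeGroup.Generators G) := IsFreeGroup.toFreeGroup G
  by_cases h : ∃ a b : IsFreeGroup.Generators G, a ≠ b
  · obtain ⟨a, b, hab⟩ := h
    exfalso
    apply hz1
    have h1 := fg_center hab (e z) (fun g => by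
      obtain ⟨g, rfl⟩ := e.surjective g
      rw [← map_mul, hz, map_mul])
    exact (map_eq_one_iff e e.injective).1 h1
  · push Not at h
    by_cases h0 : Nonempty (IsFreeGroup.Generators G)
    · obtain ⟨a⟩ := h0
      refine ⟨e.symm (FreeGroup.of a), fun g => ?_⟩
      have h1 : ∀ x : FreeGroup (IsFreeGroup.Generators G), ∃ n : ℤ, x = FreeGroup.of a ^ n := by
        intro x
        induction x using FreeGroup.induction_on with
        | C1 => exact ⟨0, by simp⟩
        | of b => exact ⟨1, by rw [h b a, zpow_one]⟩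
        | inv_of b _ => exact ⟨-1, by rw [h b a, zpow_neg_one]⟩
        | mul x y hx hy =>
          obtain ⟨n, hn⟩ := hx
          obtain ⟨m, hm⟩ := hy
          exact ⟨n + m, by rw [hn, hm, zpow_add]⟩
      obtain ⟨n, hn⟩ := h1 (e g)
      exact ⟨n, by rw [← map_zpow, ← hn]; simp⟩
    · exfalso
      apply hz1
      have : IsEmpty (IsFreeGroup.Generators G) := not_nonempty_iff.1 h0
      exact e.injective (Subsingleton.elim _ _)

variable {ι : Type*}

/-- The centraliser of a nontrivial element is cyclic. -/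
theorem fg_cent (x : FreeGroup ι) (hx : x ≠ 1) :
    ∃ c : FreeGroup ι, c * x = x * c ∧ ∀ g, g * x = x * g → ∃ n : ℤ, g = c ^ n := by
  let C : Subgroup (FreeGroup ι) := Subgroup.centralizer {x}
  have hm : ∀ g : FreeGroup ι, g ∈ C ↔ g * x = x * g := by
    intro g
    show g ∈ Subgroup.centralizer {x} ↔ _
    rw [Subgroup.mem_centralizer_singleton_iff]
  obtain ⟨c, hc⟩ := cyc_of_center (G := C) ⟨x, (hm x).2 rfl⟩ (fun h => hx (congrArg Subtype.val h))
    (fun g => Subtype.ext ((hm g.1).1 g.2).symm)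
  refine ⟨c.1, (hm _).1 c.2, fun g hg => ?_⟩
  obtain ⟨n, hn⟩ := hc ⟨g, (hm g).2 hg⟩
  refine ⟨n, ?_⟩
  have := congrArg Subtype.val hn
  simpa using this

/-- F1. -/
theorem F1 {x : FreeGroup ι} {n : ℕ} (hn : n ≠ 0) (h : x ^ n = 1) : x = 1 :=
  (pow_eq_one_iff_left hn).1 h

/-- F1 for integer powers. -/
theorem F1z {x : FreeGroup ι} {n : ℤ} (hn : n ≠ 0) (h : x ^ n = 1) : x = 1 := by
  rcases Int.natAbs_eq n with h1 | h1
  · rw [h1, zpow_natCast] at h
    exact F1 (Int.natAbs_ne_zero.2 hn) h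
  · rw [h1, zpow_neg, inv_eq_one, zpow_natCast] at h
    exact F1 (Int.natAbs_ne_zero.2 hn) h

/-- F2: commuting is transitive on the elements different from `1`. -/
theorem F2t {x y w : FreeGroup ι} (hy : y ≠ 1) (h1 : x * y = y * x) (h2 : y * w = w * y) :
    x * w = w * x := by
  obtain ⟨c, -, hc⟩ := fg_cent y hy
  obtain ⟨n, rfl⟩ := hc x h1
  obtain ⟨m, rfl⟩ := hc w h2.symm
  rw [← zpow_add, ← zpow_add, add_comm]

/-- F3. -/
theorem F3 {x y : FreeGroup ι} (hx : x ≠ 1) (hy : y ≠ 1) (h : x * y = y * x) :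
    ∃ p q : ℤ, p ≠ 0 ∧ q ≠ 0 ∧ x ^ p = y ^ q := by
  obtain ⟨c, -, hc⟩ := fg_cent x hx
  obtain ⟨n, hn⟩ := hc x rfl
  obtain ⟨m, hm⟩ := hc y h.symm
  refine ⟨m, n, ?_, ?_, ?_⟩
  · rintro rfl
    exact hy (by simpa using hm)
  · rintro rfl
    exact hx (by simpa using hn)
  · rw [hn, hm, ← zpow_mul, ← zpow_mul, mul_comm]

/-- F4. -/
theorem F4 {x y : FreeGroup ι} {m : ℕ} (hm : m ≠ 0) (h : x ^ m * y ^ m = y ^ m * x ^ m) :
    x * y = y * x := by
  by_cases hx : x = 1
  · rw [hx]; simp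
  by_cases hy : y = 1
  · rw [hy]; simp
  have hxm : x ^ m ≠ 1 := fun h' => hx (F1 hm h')
  have hym : y ^ m ≠ 1 := fun h' => hy (F1 hm h')
  have h1 : x * x ^ m = x ^ m * x := (pow_mul_comm' x m).symm
  have h2 : y ^ m * y = y * y ^ m := pow_mul_comm' y m
  exact F2t hxm h1 (F2t hym h h2)

/-- F5. -/
theorem F5 {x k : FreeGroup ι} (hx : x ≠ 1) (h : x * (k * x * k⁻¹) = k * x * k⁻¹ * x) :
    k * x = x * k := by
  have hx' : k * x * k⁻¹ ≠ 1 := by
    intro h'
    apply hx
    have h2 := mul_inv_eq_one.1 h'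
    exact mul_left_cancel (h2.trans (mul_one k).symm)
  obtain ⟨c, hcx, hc⟩ := fg_cent x hx
  obtain ⟨n, hn⟩ := hc x rfl
  have hc1 : c ≠ 1 := by
    rintro rfl
    exact hx (by simpa using hn)
  -- `k c k⁻¹` commutes with `k x k⁻¹`, so with `x`
  have h1 : (k * c * k⁻¹) * (k * x * k⁻¹) = (k * x * k⁻¹) * (k * c * k⁻¹) := by
    have : k * (c * x) * k⁻¹ = k * (x * c) * k⁻¹ := by rw [hcx]
    calc (k * c * k⁻¹) * (k * x * k⁻¹) = k * (c * x) * k⁻¹ := by group
      _ = k * (x * c) * k⁻¹ := this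
      _ = _ := by group
  have h2 : (k * c * k⁻¹) * x = x * (k * c * k⁻¹) := F2t hx' h1 h.symm
  obtain ⟨p, hp⟩ := hc _ h2
  -- `k⁻¹ c k` commutes with `x`
  have h3 : (k⁻¹ * c * k) * x = x * (k⁻¹ * c * k) := by
    have h4 : c * (k * x * k⁻¹) = (k * x * k⁻¹) * c := by
      have h5 : x * c = c * x := hcx.symm
      exact F2t hx hcx h
    calc (k⁻¹ * c * k) * x = k⁻¹ * (c * (k * x * k⁻¹)) * k := by group
      _ = k⁻¹ * ((k * x * k⁻¹) * c) * k := by rw [h4]
      _ = _ := by group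
  obtain ⟨q, hq⟩ := hc _ h3
  have h6 : c ^ (p * q) = c := by
    have h7 : k * (k⁻¹ * c * k) * k⁻¹ = c := by group
    have h8 : k * c ^ q * k⁻¹ = c := by rw [← hq, h7]
    have h9 : k * c ^ q * k⁻¹ = (k * c * k⁻¹) ^ q := (conj_zpow).symm
    rw [zpow_mul, ← hp, ← h9, h8]
  have h7 : p * q = 1 := by
    by_contra hne
    apply hc1
    have h8 : p * q - 1 ≠ 0 := fun h' => hne (by omega)
    apply F1z h8
    rw [zpow_sub_one, h6, mul_inv_cancel]
  have h8 : p = 1 ∨ p = -1 := Int.eq_one_or_neg_one_of_mul_eq_one h7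
  have h9 : (k * k) * c = c * (k * k) := by
    have h10 : k * (k * c * k⁻¹) * k⁻¹ = c := by
      rw [hp, ← conj_zpow, hp, ← zpow_mul]
      rcases h8 with rfl | rfl <;> simp
    calc (k * k) * c = (k * (k * c * k⁻¹) * k⁻¹) * (k * k) := by group
      _ = _ := by rw [h10]
  by_cases hk : k = 1
  · rw [hk]; simp
  have hkk : k * k ≠ 1 := by
    intro h'
    exact hk (F1 (n := 2) (by norm_num) (by rw [pow_two]; exact h'))
  have h10 : k * c = c * k := F2t hkk (by group) h9
  rw [hn]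
  exact ((show Commute k c from h10).zpow_right n).eq

end FHH
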